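import Mathlib

set_option autoImplicit false

namespace Pool.Agent.H.MP_4045d2_lc

open Set Filter Topology MeasureTheory TopologicalSpace Function

variable {X : Type} [MetricSpace X] [CompactSpace X]

theorem est {r : ℝ → C(X, X)} (rc : Continuous r) (radd : ∀ a b x, r (a + b) x = r a (r b x))
    (rs : ∀ a, Surjective (r a)) {ε : ℝ} (hε : 0 < ε) (k h q : C(X, X)) (hh : Surjective h)
    (key : ∃ x, ε ≤ dist (k (r 1 x)) (k x)) (m : ℕ) :
    m * volume ({t | dist (k.comp ((r t).comp h)) q < ε / (4 * m.factorial)} ∩ Icc 0 1) ≤ 2 := by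
  set E := {t | dist (k.comp ((r t).comp h)) q < ε / (4 * m.factorial)} ∩ Icc 0 1 with hE
  have hF : (0 : ℝ) < m.factorial := by exact_mod_cast m.factorial_pos
  have hm : MeasurableSet E := (isOpen_lt (by fun_prop) continuous_const).measurableSet.inter
    measurableSet_Icc
  have main : ∀ t ∈ E, ∀ c : ℕ, 0 < c → c ≤ m → t + c / m.factorial ∉ E := by
    intro t ht c c0 cm ht'
    have a1 : ∀ z, dist (k (r (c / m.factorial) z)) (k z) ≤ ε / (2 * m.factorial) := fun z => by
      obtain ⟨z, rfl⟩ := rs t z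
      obtain ⟨z, rfl⟩ := hh z
      have b1 := (ContinuousMap.dist_apply_le_dist z).trans ht.1.le
      have b2 := (ContinuousMap.dist_apply_le_dist z).trans ht'.1.le
      simp only [ContinuousMap.comp_apply] at b1 b2
      rw [add_comm, radd] at b2
      refine (dist_triangle_right _ _ (q z)).trans ((add_le_add b2 b1).trans_eq ?_)
      field_simp; ring
    have a2 : ∀ i : ℕ, ∀ z, dist (k (r ((i + 1) * (c / m.factorial)) z)) (k z) ≤
        (i + 1) * (ε / (2 * m.factorial)) := fun i => by
      induction i with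
      | zero => simpa using a1
      | succ i ih =>
        intro z
        push_cast
        rw [add_mul (_ + 1 : ℝ), one_mul, radd, add_mul (_ + 1 : ℝ), one_mul]
        exact (dist_triangle _ _ _).trans (add_le_add (ih _) (a1 z))
    obtain ⟨i, hi⟩ := Nat.dvd_factorial c0 cm
    obtain ⟨i, rfl⟩ : ∃ j, i = j + 1 := ⟨i - 1, by
      have := m.factorial_pos
      rcases i with _ | i
      · simp [hi] at this
      · rfl⟩
    obtain ⟨x, hx⟩ := key
    have a3 := a2 i x
    have e : (m.factorial : ℝ) = c * (i + 1) := by exact_mod_cast hi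
    have c1 : (1 : ℝ) ≤ c := by exact_mod_cast c0
    rw [show ((i : ℝ) + 1) * (c / m.factorial) = 1 by rw [e]; field_simp] at a3
    have : ((i : ℝ) + 1) * (ε / (2 * m.factorial)) ≤ ε / 2 := by
      rw [e]; field_simp; exact c1
    linarith
  have h1 := measure_iUnion (μ := volume) (f := fun j : Fin m =>
    (fun t => t + (j : ℕ) / (m.factorial : ℝ)) ⁻¹' E) (fun i j hij => disjoint_left.2 fun t a b => by
      rcases lt_or_gt_of_ne hij with c | c
      · refine main _ a (j - i) (by omega) (by omega) ?_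
        rw [Nat.cast_sub c.le]; convert mem_preimage.1 b using 1; ring
      · refine main _ b (i - j) (by omega) (by omega) ?_
        rw [Nat.cast_sub c.le]; convert mem_preimage.1 a using 1; ring)
    fun j => measurable_add_const _ hm
  simp only [measure_preimage_add_right, tsum_fintype, Finset.sum_const, Finset.card_univ,
    Fintype.card_fin, nsmul_eq_mul] at h1
  rw [← h1]
  refine (measure_mono (t := Icc (-1) 1) (iUnion_subset fun j t ht => ?_)).trans_eq (by simp; norm_num)
  have a1 : ((j : ℕ) : ℝ) / m.factorial ≤ 1 :=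
    (div_le_one hF).2 (by exact_mod_cast j.2.le.trans m.self_le_factorial)
  have a2 : (0 : ℝ) ≤ (j : ℕ) / m.factorial := by positivity
  exact ⟨by linarith [ht.2.1], by linarith [ht.2.2]⟩

theorem inv {g : C(X, X)} (hg : Bijective g) :
    ∃ k : C(X, X), LeftInverse k g ∧ RightInverse k g := by
  let e := (Continuous.homeoOfEquivCompactToT2 (f := Equiv.ofBijective g hg) g.continuous)
  exact ⟨e.symm, e.symm_apply_apply, e.apply_symm_apply⟩

theorem decomp (G : Set C(X, X)) (hG : ∀ f ∈ G, Bijective f) {r : ℝ → C(X, X)} (rc : Continuous r)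
    (radd : ∀ a b x, r (a + b) x = r a (r b x)) (rG : ∀ a, r a ∈ G) {ε : ℝ} (hε : 0 < ε)
    (key : ∀ k g : C(X, X), LeftInverse k g → RightInverse k g → ∃ x, ε ≤ dist (k (r 1 x)) (k x))
    [MeasurableSpace G] [BorelSpace G] :
    ∃ B : Set G, IsMeagre Bᶜ ∧ MeasurableSet B ∧ ∃ μ : Measure G, IsProbabilityMeasure μ ∧
      ∀ g h : G, μ {x : G | ∃ b ∈ B,
        (x : C(X, X)) = (g : C(X, X)).comp ((b : C(X, X)).comp (h : C(X, X)))} = 0 := by
  have : Nonempty G := ⟨⟨_, rG 0⟩⟩
  let U : ℕ → Set C(X, X) := fun n =>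
    Metric.ball (denseSeq G n.unpair.1) (ε / (4 * (2 ^ n).factorial))
  have hU : ∀ m, IsOpen (⋃ n ≥ m, U n) := fun m => isOpen_biUnion fun _ _ => Metric.isOpen_ball
  have rm : Measurable fun t => (⟨r t, rG t⟩ : G) := (rc.subtype_mk _).measurable
  have : IsProbabilityMeasure (volume.restrict (Icc (0 : ℝ) 1)) := ⟨by simp⟩
  refine ⟨⋂ m, Subtype.val ⁻¹' ⋃ n ≥ m, U n, ?_,
    .iInter fun m => ((hU m).preimage continuous_subtype_val).measurableSet,
    (volume.restrict (Icc 0 1)).map fun t => ⟨r t, rG t⟩,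
    Measure.isProbabilityMeasure_map rm.aemeasurable, fun g h => ?_⟩
  · rw [IsMeagre, compl_compl, countable_iInter_mem]
    refine fun m => residual_of_dense_open ((hU m).preimage continuous_subtype_val)
      (Dense.mono ?_ (denseRange_denseSeq G))
    rintro _ ⟨i, rfl⟩
    exact mem_biUnion (Nat.right_le_pair i m) (by simp only [U, Nat.unpair_pair]; exact Metric.mem_ball_self (by positivity))
  · obtain ⟨k, k1, k2⟩ := inv (hG _ g.2)
    obtain ⟨h', h1, h2⟩ := inv (hG _ h.2)
    have c : Continuous fun x : G => k.comp (x.1.comp h') := by fun_prop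
    refine measure_mono_null (t := ⋂ m, (fun x : G => k.comp (x.1.comp h')) ⁻¹' ⋃ n ≥ m, U n) ?_ ?_
    · rintro x ⟨b, hb, e⟩
      have : k.comp (x.1.comp h') = b := by ext y; simp [e, k1 _, h2 _]
      simpa [this] using hb
    rw [Measure.map_apply rm (.iInter fun m => ((hU m).preimage c).measurableSet),
      Measure.restrict_apply' measurableSet_Icc]
    refine measure_mono_null (fun t ht => ?_) (measure_setOf_frequently_eq_zero
      (p := fun n t => k.comp ((r t).comp h') ∈ U n ∧ t ∈ Icc 0 1) (ne_top_of_le_ne_top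
        (b := ∑' n : ℕ, 2 * 2⁻¹ ^ n) (by
          rw [ENNReal.tsum_mul_left, ENNReal.tsum_geometric_two]
          exact ENNReal.mul_ne_top (by simp) (by simp))
        (ENNReal.tsum_le_tsum fun n => ?_)))
    · simpa [frequently_atTop, ht.2.1, ht.2.2] using ht.1
    have := est rc radd (fun a => (hG _ (rG a)).2) hε k h' (denseSeq G n.unpair.1) h1.surjective
      (key k g k1 k2) (2 ^ n)
    rw [← ENNReal.inv_pow, ← div_eq_mul_inv, ENNReal.le_div_iff_mul_le (by simp) (by simp), mul_comm]
    rw [Nat.cast_pow, Nat.cast_ofNat] at this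
    exact this

end Pool.Agent.H.MP_4045d2_lc
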