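import Pool.Agent.H.MP_4045d2_lc.A
import Pool.Agent.Lib.helper21.Deg2

set_option autoImplicit false

namespace Pool.Agent.H.MP_4045d2_lc

open Set Function Real Metric Pool.Agent.Lib.helper21.Deg2 Pool.Agent.Lib.helper9.BorsukUlam

abbrev E (m : ℕ) := EuclideanSpace ℝ (Fin (m + 2))

variable {m : ℕ}

noncomputable def rot (t : ℝ) (x : E m) : E m := WithLp.toLp 2
  (Fin.cons (cos (π * t) * x 0 - sin (π * t) * x 1)
    (Fin.cons (sin (π * t) * x 0 + cos (π * t) * x 1) fun i => x i.succ.succ))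

theorem rot_add (a b : ℝ) (x : E m) : rot (a + b) x = rot a (rot b x) := by
  ext i
  refine Fin.cases ?_ (Fin.cases ?_ fun i => rfl) i
  · simp [rot, mul_add, cos_add, sin_add]; ring
  · simp [rot, mul_add, cos_add, sin_add]; ring

theorem rot_zero (x : E m) : rot 0 x = x := by
  ext i
  refine Fin.cases ?_ (Fin.cases ?_ fun i => rfl) i <;> simp [rot]

theorem rot_one (x : Fin (m + 2) → ℝ) : rot 1 (WithLp.toLp 2 x) = WithLp.toLp 2 (sg x) := by
  ext i
  refine Fin.cases ?_ (Fin.cases ?_ fun i => ?_) i <;> simp [rot, sg]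

theorem rot_smul (t c : ℝ) (x : E m) : rot t (c • x) = c • rot t x := by
  ext i
  refine Fin.cases ?_ (Fin.cases ?_ fun i => rfl) i <;> simp [rot] <;> ring

theorem norm_rot (t : ℝ) (x : E m) : ‖rot t x‖ = ‖x‖ := by
  simp only [EuclideanSpace.norm_eq, Fin.sum_univ_succ, rot, Fin.cons_zero, Fin.cons_succ,
    Real.norm_eq_abs, sq_abs, Fin.succ_zero_eq_one]
  congr 1
  linear_combination (x 0 ^ 2 + x 1 ^ 2) * sin_sq_add_cos_sq (π * t)

theorem cont_rot : Continuous fun p : ℝ × E m => rot p.1 p.2 := by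
  refine (PiLp.continuous_toLp _ _).comp (continuous_pi fun i => ?_)
  refine Fin.cases ?_ (Fin.cases ?_ fun i => ?_) i <;>
    simp only [Fin.cons_zero, Fin.cons_succ] <;> fun_prop

noncomputable def rr (S : Set (E m)) (hS : ∀ t, ∀ x ∈ S, rot t x ∈ S) : C(ℝ, C(S, S)) :=
  ContinuousMap.curry ⟨fun p => ⟨rot p.1 p.2, hS _ _ p.2.2⟩,
    (cont_rot.comp (f := fun p : ℝ × S => (p.1, p.2.1)) (by fun_prop)).subtype_mk _⟩

theorem rr_add {S : Set (E m)} (hS : ∀ t, ∀ x ∈ S, rot t x ∈ S) (a b : ℝ) (x : S) :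
    rr S hS (a + b) x = rr S hS a (rr S hS b x) := Subtype.ext (rot_add a b x.1)

theorem rr_zero {S : Set (E m)} (hS : ∀ t, ∀ x ∈ S, rot t x ∈ S) : rr S hS 0 = .id S :=
  ContinuousMap.ext fun x => Subtype.ext (rot_zero x.1)

theorem rr_bij {S : Set (E m)} (hS : ∀ t, ∀ x ∈ S, rot t x ∈ S) (a : ℝ) : Bijective (rr S hS a) :=
  bijective_iff_has_inverse.2 ⟨rr S hS (-a), fun x => by simp [← rr_add, rr_zero],
    fun x => by simp [← rr_add, rr_zero]⟩

theorem rot_sphere (t : ℝ) : ∀ x ∈ sphere (0 : E m) 1, rot t x ∈ sphere (0 : E m) 1 := by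
  simp [norm_rot]

theorem rr_hom (a : ℝ) : (rr (sphere (0 : E m) 1) rot_sphere a).Homotopic (.id _) :=
  ⟨⟨⟨fun p => rr _ rot_sphere ((1 - p.1) * a) p.2, by fun_prop⟩, by simp, by simp [rr_zero]⟩⟩

open Classical in
noncomputable def nm (x : E m) : sphere (0 : E m) 1 :=
  if h : x = 0 then ⟨EuclideanSpace.single 0 1, by simp⟩ else ⟨‖x‖⁻¹ • x, by simp [norm_smul, h]⟩

theorem nm_val {x : E m} (h : x ≠ 0) : (nm x).1 = ‖x‖⁻¹ • x := by simp [nm, h]

theorem cont_nm : ContinuousOn (nm (m := m)) {0}ᶜ := by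
  rw [Topology.IsInducing.subtypeVal.continuousOn_iff]
  exact ((continuous_norm.continuousOn.inv₀ fun x hx => norm_ne_zero_iff.2 hx).smul
    continuousOn_id).congr fun x hx => nm_val hx

theorem key_sphere (k g : C(sphere (0 : E m) 1, sphere (0 : E m) 1)) (h : LeftInverse g k) :
    ∃ x, 2 ≤ dist (k (rr _ rot_sphere 1 x)) (k x) := by
  by_contra hn
  push Not at hn
  let σ := rr (sphere (0 : E m) 1) rot_sphere 1
  let v : ℝ × sphere (0 : E m) 1 → E m := fun p => k p.2 + p.1 • (k (σ p.2)).1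
  have v0 : ∀ t ∈ Icc (0 : ℝ) 1, ∀ x, v (t, x) ≠ 0 := fun t ht x e => by
    have e1 : (k x).1 = -(t • (k (σ x)).1) := eq_neg_of_add_eq_zero_left e
    have e2 := congrArg norm e1
    simp only [norm_neg, norm_smul, norm_eq_of_mem_sphere, Real.norm_eq_abs, abs_of_nonneg ht.1,
      mul_one] at e2
    have := hn x
    rw [Subtype.dist_eq, dist_eq_norm, e1, ← e2, one_smul, sub_neg_eq_add, ← two_smul ℝ, norm_smul,
      norm_eq_of_mem_sphere] at this
    norm_num at this
  have s0 : ∀ x ∈ S (m + 1) (m + 1), (WithLp.toLp 2 x : E m) ≠ 0 := fun x hx e => by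
    obtain rfl : x = 0 := congrArg WithLp.ofLp e
    simpa using hx.1
  refine no_inv (m + 1) (by omega) (fun p => (g (nm (v (p.1, nm (WithLp.toLp 2 p.2))))).1.ofLp) ?_
    (fun p _ e => ?_) (fun x hx => ?_) fun x => ?_
  · have c1 : ContinuousOn (fun p : ℝ × (Fin (m + 2) → ℝ) => nm (WithLp.toLp 2 p.2 : E m))
        (Icc 0 1 ×ˢ S (m + 1) (m + 1)) :=
      cont_nm.comp (f := fun p : ℝ × (Fin (m + 2) → ℝ) => WithLp.toLp 2 p.2)
        (Continuous.continuousOn (by fun_prop)) fun p hp => s0 _ hp.2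
    have c2 : Continuous v := by fun_prop
    have c3 := cont_nm.comp (c2.comp_continuousOn (continuousOn_fst.prodMk c1))
      fun p hp => v0 _ hp.1 _
    exact (PiLp.continuous_ofLp _ _).comp_continuousOn (continuous_subtype_val.comp_continuousOn
      (g.continuous.comp_continuousOn c3))
  · exact ne_zero_of_mem_unit_sphere _ (WithLp.ofLp_injective 2 e)
  · have : ∀ y : sphere (0 : E m) 1, nm y.1 = y := fun y =>
      Subtype.ext (by simp [nm_val (ne_zero_of_mem_unit_sphere y)])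
    simp only [v, zero_smul, add_zero, this, h _]
    rw [nm_val (s0 _ hx), nm_val (s0 _ (S_neg hx))]
    simp
  · by_cases hx : x = 0
    · subst hx
      rw [show sg (0 : Fin (m + 2) → ℝ) = 0 from funext fun i => by simp [sg]]
    have h1 : (WithLp.toLp 2 x : E m) ≠ 0 := fun e => hx (congrArg WithLp.ofLp e)
    have h2 : nm (WithLp.toLp 2 (sg x) : E m) = σ (nm (WithLp.toLp 2 x)) := Subtype.ext (by
      show _ = rot 1 _
      rw [← rot_one, nm_val h1, nm_val (norm_ne_zero_iff.1 (by rw [norm_rot]; simpa using hx)),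
        rot_smul, norm_rot])
    have h3 : ∀ y, σ (σ y) = y := fun y => Subtype.ext (by
      show rot 1 (rot 1 y.1) = y.1
      rw [show y.1 = WithLp.toLp 2 y.1.ofLp from rfl, rot_one, rot_one]
      congr 1
      funext i; simp only [sg]; split_ifs <;> simp)
    simp only [v, one_smul, h2, h3]
    rw [add_comm (k (σ _)).1]

end Pool.Agent.H.MP_4045d2_lc
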