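import Pool.Agent.H.MP_4045d2_lc.B
import Pool.Agent.Lib.helper11.IoD

set_option autoImplicit false

namespace Pool.Agent.H.MP_4045d2_lc

open Set Function Metric MeasureTheory

/-- The unit sphere of `ℝ^n`. -/
abbrev Sph (n : ℕ) := sphere (0 : EuclideanSpace ℝ (Fin n)) 1

/-- The closed unit ball of `ℝ^n`. -/
abbrev Dsk (n : ℕ) := closedBall (0 : EuclideanSpace ℝ (Fin n)) 1

/-- Orientation preserving homeomorphisms of the unit sphere of `ℝ^n`: homotopic to the identity. -/
def HS (n : ℕ) : Set C(Sph n, Sph n) := {f | Bijective f ∧ f.Homotopic (.id _)}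

/-- Orientation preserving homeomorphisms of the closed unit ball of `ℝ^n`: the restriction to the
boundary sphere is homotopic to the identity of the sphere. -/
def HD (n : ℕ) : Set C(Dsk n, Dsk n) := {f | Bijective f ∧ ∃ r : C(Sph n, Sph n),
  (∀ x : Sph n, (r x).1 = (f ⟨x.1, sphere_subset_closedBall x.2⟩).1) ∧ r.Homotopic (.id _)}

/-- Haar null in the sense of Christensen, with two-sided translates. -/
def HaarNull {X : Type} [TopologicalSpace X] (G : Set C(X, X)) (N : Set G) : Prop :=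
  ∃ B : Set G, N ⊆ B ∧ @MeasurableSet G (borel G) B ∧ ∃ μ : @Measure G (borel G),
    IsProbabilityMeasure μ ∧ ∀ g h : G, μ {x : G | ∃ b ∈ B, x.1 = g.1.comp (b.1.comp h.1)} = 0

/-- `G` is partitioned into a meagre set and a Haar null set. -/
def Splits {X : Type} [TopologicalSpace X] (G : Set C(X, X)) : Prop :=
  ∃ M N : Set G, M ∪ N = univ ∧ Disjoint M N ∧ IsMeagre M ∧ HaarNull G N

variable {m : ℕ}

theorem splits_sphere : Splits (HS (m + 2)) := by
  let _ := borel (HS (m + 2))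
  obtain ⟨B, h1, h2, h3⟩ := @decomp _ _ _ (HS (m + 2))
    (fun _ h => h.1) _ (rr _ (rot_sphere (m := m))).continuous (rr_add _)
    (fun a => ⟨rr_bij _ a, rr_hom a⟩) _ two_pos (fun k g _ h => key_sphere k g h) _ ⟨rfl⟩
  exact ⟨_, B, compl_union_self _, disjoint_compl_left, h1, B, subset_rfl, h2, h3⟩

theorem bdry (k g : C(Dsk m, Dsk m)) (h1 : LeftInverse k g) (h2 : RightInverse k g) (x : Dsk m)
    (hx : ‖x.1‖ = 1) : (k x).1 ∈ Sph m := by
  classical
  by_contra hn
  have hk : (k x).1 ∈ ball (0 : EuclideanSpace ℝ (Fin m)) 1 := by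
    simpa using lt_of_le_of_ne (mem_closedBall_zero_iff.1 (k x).2) (by simpa using hn)
  let f : EuclideanSpace ℝ (Fin m) → EuclideanSpace ℝ (Fin m) := fun y =>
    if h : y ∈ Dsk m then g ⟨y, h⟩ else 0
  have hf : ∀ y : Dsk m, f y = g y := fun y => dif_pos y.2
  have := Pool.Agent.Lib.helper11.IoD.iod (f := f) isOpen_ball
    (ContinuousOn.mono (s := Dsk m) (continuousOn_iff_continuous_restrict.2
      ((continuous_subtype_val.comp g.continuous).congr fun y => (hf y).symm))
      ball_subset_closedBall) fun a ha b hb e => by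
        have := (hf ⟨a, ball_subset_closedBall ha⟩).symm.trans (e.trans (hf ⟨b, ball_subset_closedBall hb⟩))
        exact congrArg Subtype.val (h1.injective (Subtype.ext this))
  have h3 : x.1 ∈ interior (Dsk m) := interior_maximal (by
    rintro _ ⟨y, hy, rfl⟩
    rw [hf ⟨y, ball_subset_closedBall hy⟩]; exact (g _).2) this ⟨_, hk, by rw [hf, h2]⟩
  rw [interior_closedBall _ one_ne_zero] at h3
  simp [hx] at h3

theorem rot_ball (t : ℝ) : ∀ x ∈ Dsk (m + 2), rot t x ∈ Dsk (m + 2) := by simp [norm_rot]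

def res (k : C(Dsk m, Dsk m)) (h : ∀ x : Dsk m, ‖x.1‖ = 1 → (k x).1 ∈ Sph m) : C(Sph m, Sph m) :=
  ⟨fun x => ⟨k ⟨x.1, sphere_subset_closedBall x.2⟩, h _ (by simp)⟩, by fun_prop⟩

theorem splits_ball : Splits (HD (m + 2)) := by
  let _ := borel (HD (m + 2))
  obtain ⟨B, h1, h2, h3⟩ := @decomp _ _ _ (HD (m + 2))
    (fun _ h => h.1) _ (rr _ (rot_ball (m := m))).continuous (rr_add _)
    (fun a => ⟨rr_bij _ a, _, fun _ => rfl, rr_hom a⟩) _ two_pos (fun k g a b => by
      obtain ⟨x, hx⟩ := key_sphere (res k (bdry k g a b)) (res g (bdry g k b a))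
        fun x => Subtype.ext (Subtype.ext_iff.1 (b ⟨x.1, sphere_subset_closedBall x.2⟩) :)
      exact ⟨⟨x.1, sphere_subset_closedBall x.2⟩, hx⟩) _ ⟨rfl⟩
  exact ⟨_, B, compl_union_self _, disjoint_compl_left, h1, B, subset_rfl, h2, h3⟩

end Pool.Agent.H.MP_4045d2_lc
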